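import Pool.Agent.Helper9.BS.St

set_option autoImplicit false

/-! Project BS, module CO (written by helper62). -/

open scoped NNReal

noncomputable section

namespace Pool.Agent.Helper62.BS

open Pool.Agent.Helper9.BS

theorem hCO : StCO := by
  intro H K _ _ _ _ T u e h
  have hn : ∀ s, ‖e s‖ ^ 2 = ‖u‖ ^ 2 := by
    intro s
    have h1 := h s s
    rw [tsub_self, T.zero, inner_self_eq_norm_sq_to_K, inner_self_eq_norm_sq_to_K] at h1
    exact_mod_cast h1
  rw [continuous_iff_continuousAt]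
  intro t
  have hF : ∀ s, ‖e s - e t‖ ^ 2 =
      2 * ‖u‖ ^ 2 - 2 * RCLike.re (inner ℂ (T.T (s - t) u) (T.T (t - s) u)) := by
    intro s
    rw [norm_sub_sq (𝕜 := ℂ), hn s, hn t, h s t]
    ring
  have hc : Continuous fun s : ℝ≥0 =>
      2 * ‖u‖ ^ 2 - 2 * RCLike.re (inner ℂ (T.T (s - t) u) (T.T (t - s) u)) := by
    have h1 : Continuous fun s : ℝ≥0 => T.T (s - t) u :=
      (T.cont u).comp (continuous_id.sub continuous_const)
    have h2 : Continuous fun s : ℝ≥0 => T.T (t - s) u :=
      (T.cont u).comp (continuous_const.sub continuous_id)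
    exact continuous_const.sub (continuous_const.mul (RCLike.continuous_re.comp (h1.inner h2)))
  have h0 : 2 * ‖u‖ ^ 2 - 2 * RCLike.re (inner ℂ (T.T (t - t) u) (T.T (t - t) u)) = 0 := by
    rw [← hF t]
    simp
  have h1 : Filter.Tendsto (fun s : ℝ≥0 => Real.sqrt
      (2 * ‖u‖ ^ 2 - 2 * RCLike.re (inner ℂ (T.T (s - t) u) (T.T (t - s) u)))) (nhds t)
      (nhds 0) := by
    have h2 := (Real.continuous_sqrt.comp hc).tendsto t
    simp only [Function.comp_def] at h2
    rw [h0, Real.sqrt_zero] at h2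
    exact h2
  unfold ContinuousAt
  rw [tendsto_iff_norm_sub_tendsto_zero]
  refine h1.congr ?_
  intro s
  rw [← hF s, Real.sqrt_sq (norm_nonneg _)]

end Pool.Agent.Helper62.BS
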