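import Pool.Agent.Helper74.BS.St

/-! Project BS, module SO: soundness of the call structure which computes the vectors. -/

set_option autoImplicit false

namespace Pool.Agent.Helper62.BS

open Pool.Agent.Helper73.DC Pool.Agent.Helper74.BS

private lemma lfA_eval (V X0 : ℕ) (lf : ℕ → ℕ) (y x a : ℕ) (hx : y / V = x) (ha : y % V = a) :
    (X0 ≤ x → lfA V X0 lf y = min (x - X0) X0 * V + a + 1) ∧
    (¬ X0 ≤ x → lf x = 0 → lfA V X0 lf y = 0) ∧
    (¬ X0 ≤ x → lf x ≠ 0 → lfA V X0 lf y = (lf x - 1) * V + a + 1) := by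
  subst hx ha
  refine ⟨fun h => ?_, fun h h2 => ?_, fun h h2 => ?_⟩
  · unfold lfA
    rw [if_pos h]
  · unfold lfA
    rw [if_neg h, if_pos h2]
  · unfold lfA
    rw [if_neg h, if_neg h2]

theorem hSO (hVE : StVE) : Pool.Agent.Helper74.BS.StSO := by
  obtain ⟨v1, v2, v3, v4, v5, v6, v7, v8, v9⟩ := hVE
  intro lf cl tn rs K m X0 hK hcl hrs hlf y v i n h
  obtain ⟨V, hV⟩ : ∃ V : ℕ, V = (K + 1) ^ m := ⟨_, rfl⟩
  have hVpos : 0 < V := by rw [hV]; positivity
  rw [← hV] at h ⊢
  have hvec : ∀ f : Fo, vec K m f < V := fun f => by rw [hV]; exact v1 K m f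
  have haddv : ∀ a b : ℕ, addv K m a b < V := fun a b => by rw [hV]; exact v2 K m a b
  have hdiv : ∀ x a : ℕ, a < V → (x * V + a) / V = x := by
    intro x a ha
    rw [Nat.add_comm, Nat.add_mul_div_right _ _ hVpos, Nat.div_eq_of_lt ha, Nat.zero_add]
  have hmod : ∀ x a : ℕ, a < V → (x * V + a) % V = a := by
    intro x a ha
    rw [Nat.add_comm, Nat.add_mul_mod_self_right, Nat.mod_eq_of_lt ha]
  induction h with
  | leaf y v hl =>
    intro x a hx ha hy
    have hyx : y / V = x := by rw [hy]; exact hdiv x a ha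
    have hya : y % V = a := by rw [hy]; exact hmod x a ha
    obtain ⟨_, e2, e3⟩ := lfA_eval V X0 lf y x a hyx hya
    by_cases h0 : lf x = 0
    · rw [e2 (not_le.2 hx) h0] at hl
      exact absurd hl (by omega)
    · rw [e3 (not_le.2 hx) h0] at hl
      refine ⟨lf x - 1, Fo.nil, EvF.leaf x (lf x - 1) (by omega), ?_, ?_⟩
      · have := hlf x
        omega
      · rw [v8, (v7 K m a (by rw [← hV]; exact ha)).1]
        omega
  | node y r1 m1 n1 r2 m2 n2 hl h1 h2 ih1 ih2 =>
    intro x a hx ha hy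
    have hyx : y / V = x := by rw [hy]; exact hdiv x a ha
    have hya : y % V = a := by rw [hy]; exact hmod x a ha
    obtain ⟨_, e2, e3⟩ := lfA_eval V X0 lf y x a hyx hya
    have h0 : lf x = 0 := by
      by_contra h0
      rw [e3 (not_le.2 hx) h0] at hl
      exact absurd hl (by omega)
    by_cases htn : tn x = 0
    · have hc : clA V cl rs tn y = cl x * V + a := by
        unfold clA
        rw [hyx, hya, if_pos htn]
      obtain ⟨s1, f1, g1, g2, g3⟩ := ih1 (cl x) a (hcl x) ha hc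
      have hr : rsA K m V X0 rs tn y r1 = rs x s1 * V + addv K m a (vec K m f1) := by
        unfold rsA
        rw [hyx, if_pos htn, g3, hdiv _ _ (haddv _ _), hmod _ _ (haddv _ _)]
      obtain ⟨s2, f2, k1, k2, k3⟩ := ih2 (rs x s1) (addv K m a (vec K m f1)) (hrs x s1)
        (haddv _ _) hr
      refine ⟨s2, app f1 f2, EvF.node x s1 s2 f1 f2 h0 htn g1 k1, k2, ?_⟩
      rw [k3, v5, v6]
    · have hc : clA V cl rs tn y = rs x 0 * V + 0 := by
        unfold clA
        rw [hyx, if_neg htn, Nat.add_zero]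
      obtain ⟨s1, f1, g1, g2, g3⟩ := ih1 (rs x 0) 0 (hrs x 0) hVpos hc
      rw [(v7 K m (vec K m f1) (by rw [← hV]; exact hvec f1)).2] at g3
      have hr : rsA K m V X0 rs tn y r1 =
          (X0 + s1) * V + addv K m a (vec K m (Fo.nd f1 Fo.nil)) := by
        unfold rsA
        rw [hyx, hya, if_neg htn, g3, hdiv _ _ (hvec _), hmod _ _ (hvec _), min_eq_left g2.le,
          v4 K m f1 hK]
      obtain ⟨b, hb⟩ : ∃ b : ℕ, b = addv K m a (vec K m (Fo.nd f1 Fo.nil)) := ⟨_, rfl⟩
      have hbV : b < V := by rw [hb]; exact haddv _ _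
      rw [← hb] at hr
      have hl2 : lfA V X0 lf (rsA K m V X0 rs tn y r1) = s1 * V + b + 1 := by
        have h3 := (lfA_eval V X0 lf (rsA K m V X0 rs tn y r1) (X0 + s1) b
          (by rw [hr]; exact hdiv _ _ hbV) (by rw [hr]; exact hmod _ _ hbV)).1 (by omega)
        rw [h3, Nat.add_sub_cancel_left, min_eq_left g2.le]
      refine ⟨s1, Fo.nd f1 Fo.nil, EvF.tree x s1 f1 h0 htn g1, g2, ?_⟩
      rw [← hb]
      cases h2 with
      | leaf _ _ h4 => omega
      | node _ _ _ _ _ _ _ h4 _ _ => omega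

end Pool.Agent.Helper62.BS
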